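import Pool.Agent.Run7.h714.AC.UF

/-!
# Piece RHO of helper104's project on MP_0b1b3b_an
-/

set_option autoImplicit false

namespace Pool.Agent.Run7.h714.AC

open MeasureTheory Complex Set Filter Topology Metric
open Pool.Agent.Run7.h104.AC

theorem Cd_inj : InjOn Cd (ball 0 1) := by
  intro s hs t ht h
  have h1 : (s - t) * (t + (s + 2)) / 2 = 0 := by
    rw [← Cd_sub, h, sub_self]
  rw [mem_ball_zero_iff] at hs ht
  have h2 : t + (s + 2) ≠ 0 := by
    intro h3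
    have h4 : ‖(2 : ℂ)‖ ≤ ‖t‖ + ‖s‖ := by
      have h5 : (2 : ℂ) = -(t + s) := by
        linear_combination h3
      rw [h5, norm_neg]
      exact norm_add_le _ _
    have h6 : ‖(2 : ℂ)‖ = 2 := by simp
    linarith
  have h3 : (s - t) * (t + (s + 2)) = 0 := by
    have := div_eq_zero_iff.1 h1
    rcases this with h4 | h4
    · exact h4
    · exact absurd h4 two_ne_zero
  rcases mul_eq_zero.1 h3 with h4 | h4
  · exact sub_eq_zero.1 h4
  · exact absurd h4 h2

theorem U_sub (t : ℂ) (ht0 : t ≠ 0) (ht : 1 ≤ ‖t + 2‖) :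
    U (Cd t) - Real.log ‖Cd t‖ = Real.posLog ‖t‖ - Real.log ‖t‖ := by
  have h1 : (0 : ℝ) < ‖t‖ := norm_pos_iff.2 ht0
  have h2 : (0 : ℝ) < ‖t + 2‖ := by linarith
  rw [uf1 t ht, Cd_eq, norm_div, norm_mul, Real.log_div (mul_pos h1 h2).ne' (by simp),
    Real.log_mul h1.ne' h2.ne']
  have h3 : ‖(2 : ℂ)‖ = 2 := by simp
  rw [h3]
  ring

theorem rho_in (t : ℂ) (ht0 : t ≠ 0) (ht : ‖t‖ < 1) : rho (Cd t) = (‖t‖ ^ 3)⁻¹ := by
  have h1 : (0 : ℝ) < ‖t‖ := norm_pos_iff.2 ht0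
  have h2 : 1 ≤ ‖t + 2‖ := by
    have h3 : ‖(2 : ℂ)‖ ≤ ‖t + 2‖ + ‖t‖ := by
      calc ‖(2 : ℂ)‖ = ‖(t + 2) - t‖ := by congr 1; ring
        _ ≤ ‖t + 2‖ + ‖t‖ := norm_sub_le _ _
    have h4 : ‖(2 : ℂ)‖ = 2 := by simp
    linarith
  have h5 : Real.posLog ‖t‖ = 0 := by
    rw [Real.posLog_eq_zero_iff, abs_norm]
    exact ht.le
  unfold rho
  rw [U_sub t ht0 h2, h5, zero_sub]
  have h6 : 3 * -Real.log ‖t‖ = -(3 * Real.log ‖t‖) := by ring
  have h7 : Real.exp (3 * Real.log ‖t‖) = ‖t‖ ^ 3 := by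
    have h8 : (3 : ℝ) * Real.log ‖t‖ = Real.log (‖t‖ ^ 3) := by
      rw [Real.log_pow]
      norm_num
    rw [h8, Real.exp_log (pow_pos h1 3)]
  rw [h6, Real.exp_neg, h7]

theorem rho_out (w : ℂ) (hw : w ∉ G) : rho w = 1 := by
  obtain ⟨t, ht1, ht2, -, -⟩ := uf2 w
  have h1 : 1 ≤ ‖t‖ := by
    by_contra h
    push Not at h
    exact hw ⟨t, mem_ball_zero_iff.2 h, ht1⟩
  have h0 : t ≠ 0 := by
    intro h
    rw [h, norm_zero] at h1
    linarith
  have h2 : Real.posLog ‖t‖ = Real.log ‖t‖ := Real.posLog_eq_log (by rw [abs_norm]; exact h1)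
  unfold rho
  rw [← ht1, U_sub t h0 ht2, h2, sub_self, mul_zero, Real.exp_zero]

theorem rho_ge (w : ℂ) : 1 ≤ rho w := by
  obtain ⟨t, ht1, ht2, -, -⟩ := uf2 w
  unfold rho
  rw [Real.one_le_exp_iff]
  refine mul_nonneg (by norm_num) ?_
  by_cases h0 : t = 0
  · have h1 : w = 0 := by
      rw [← ht1, h0]
      simp [Cd]
    rw [h1, norm_zero, Real.log_zero, sub_zero]
    have h2 : U (Cd 0) = 0 := by
      rw [uf1 0 (by simp)]
      simp
    have h3 : Cd 0 = 0 := by simp [Cd]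
    rw [h3] at h2
    rw [h2]
  · rw [← ht1, U_sub t h0 ht2]
    have h1 : Real.posLog ‖t‖ = max 0 (Real.log ‖t‖) := rfl
    rw [h1]
    linarith [le_max_right 0 (Real.log ‖t‖)]

theorem meas_U : Measurable U := by
  have h1 : U = fun w => (2 * Real.pi)⁻¹ •
      ∫ θ in Set.Ioc 0 (2 * Real.pi), Real.log ‖w - Cd (circleMap 0 1 θ)‖ := by
    funext w
    unfold U Real.circleAverage
    rw [intervalIntegral.integral_of_le Real.two_pi_pos.le]
  rw [h1]
  simp only [smul_eq_mul]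
  refine Measurable.const_mul ?_ _
  refine StronglyMeasurable.measurable ?_
  refine StronglyMeasurable.integral_prod_right (ν := volume.restrict (Set.Ioc 0 (2 * Real.pi)))
    (f := fun w θ => Real.log ‖w - Cd (circleMap 0 1 θ)‖) ?_
  refine Measurable.stronglyMeasurable ?_
  refine Real.measurable_log.comp ?_
  refine Measurable.norm ?_
  refine measurable_fst.sub ?_
  have h2 : Continuous fun θ : ℝ => Cd (circleMap 0 1 θ) := by
    unfold Cd
    have h3 := continuous_circleMap 0 1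
    fun_prop
  exact h2.measurable.comp measurable_snd

theorem U_bd (w : ℂ) : -Real.log 2 ≤ U w ∧ U w ≤ 2 * Real.log (2 + ‖w‖) := by
  obtain ⟨t, ht1, ht2, ht3, ht4⟩ := uf2 w
  rw [← ht1, uf1 t ht2, ht1]
  have h1 : 0 ≤ Real.posLog ‖t‖ := Real.posLog_nonneg
  have h2 : 0 ≤ Real.log ‖t + 2‖ := Real.log_nonneg ht2
  have h3 : 0 ≤ Real.log 2 := Real.log_nonneg (by norm_num)
  have h4 : Real.log ‖t + 2‖ ≤ Real.log (2 + ‖w‖) := Real.log_le_log (by linarith) ht4
  have h5 : Real.posLog ‖t‖ ≤ Real.log (2 + ‖w‖) := by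
    have h6 : Real.posLog ‖t‖ = max 0 (Real.log ‖t‖) := rfl
    rw [h6]
    refine max_le ?_ ?_
    · exact Real.log_nonneg (by linarith [norm_nonneg w])
    · by_cases h7 : t = 0
      · rw [h7, norm_zero, Real.log_zero]
        exact Real.log_nonneg (by linarith [norm_nonneg w])
      · exact Real.log_le_log (norm_pos_iff.2 h7) ht3
  constructor <;> linarith

theorem t_RHO : S_RHO := by
  refine ⟨Cd_inj, rho_in, rho_out, rho_ge, meas_U, ?_, U_bd⟩
  unfold rho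
  refine Real.measurable_exp.comp ?_
  exact (meas_U.sub (Real.measurable_log.comp measurable_norm)).const_mul 3

end Pool.Agent.Run7.h714.AC
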