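import Pool.Agent.Run7.h104.AC.Defs

/-!
# Piece UF of helper104's project on MP_0b1b3b_an
-/

set_option autoImplicit false

namespace Pool.Agent.Run7.h714.AC

open MeasureTheory Complex Set Filter Topology Metric
open Pool.Agent.Run7.h104.AC

theorem Cd_sub (t z : ℂ) : Cd t - Cd z = (t - z) * (z + (t + 2)) / 2 := by
  unfold Cd
  ring

theorem Cd_eq (t : ℂ) : Cd t = t * (t + 2) / 2 := by
  unfold Cd
  ring

theorem uf1 (t : ℂ) (ht : 1 ≤ ‖t + 2‖) :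
    U (Cd t) = Real.posLog ‖t‖ + Real.log ‖t + 2‖ - Real.log 2 := by
  have h1 : U (Cd t) = Real.circleAverage
      ((fun z : ℂ => Real.log ‖z - t‖) + ((fun z : ℂ => Real.log ‖z + (t + 2)‖) +
        fun _ : ℂ => -Real.log 2)) 0 1 := by
    unfold U
    apply Real.circleAverage_congr_codiscreteWithin _ (zero_ne_one' ℝ).symm
    have hs : {z : ℂ | z - t ≠ 0 ∧ z + (t + 2) ≠ 0} ∈
        codiscreteWithin (Metric.sphere (0 : ℂ) |1|) := by
      apply codiscreteWithin_iff_locallyFiniteComplementWithin.2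
      intro z hz
      refine ⟨Set.univ, univ_mem, ?_⟩
      refine Set.Finite.subset (Set.toFinite {t, -(t + 2)}) ?_
      intro w hw
      have hw2 : ¬ (w - t ≠ 0 ∧ w + (t + 2) ≠ 0) := hw.2.2
      by_cases h3 : w - t = 0
      · left
        exact sub_eq_zero.1 h3
      · right
        by_contra h4
        exact hw2 ⟨h3, fun h5 => h4 (eq_neg_of_add_eq_zero_left h5)⟩
    filter_upwards [hs] with z hz
    simp only [Pi.add_apply]
    rw [Cd_sub, norm_div, norm_mul, norm_sub_rev t z, Real.log_div, Real.log_mul]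
    · have h2 : ‖(2 : ℂ)‖ = 2 := by simp
      rw [h2]
      ring
    · exact norm_ne_zero_iff.2 hz.1
    · exact norm_ne_zero_iff.2 hz.2
    · exact mul_ne_zero (norm_ne_zero_iff.2 hz.1) (norm_ne_zero_iff.2 hz.2)
    · simp
  have hI1 : CircleIntegrable (fun z : ℂ => Real.log ‖z - t‖) 0 1 :=
    circleIntegrable_log_norm_sub_const 1
  have hI2 : CircleIntegrable (fun z : ℂ => Real.log ‖z + (t + 2)‖) 0 1 := by
    have := circleIntegrable_log_norm_sub_const (a := -(t + 2)) (c := 0) 1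
    simpa only [sub_neg_eq_add] using this
  have hI3 : CircleIntegrable (fun _ : ℂ => -Real.log 2) 0 1 := circleIntegrable_const _ _ _
  rw [h1, Real.circleAverage_add hI1 (hI2.add hI3), Real.circleAverage_add hI2 hI3,
    Real.circleAverage_const, circleAverage_log_norm_sub_const_eq_posLog,
    circleAverage_log_norm_add_const_eq_posLog]
  have h4 : Real.posLog ‖t + 2‖ = Real.log ‖t + 2‖ :=
    Real.posLog_eq_log (by rw [abs_norm]; exact ht)
  rw [h4]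
  ring

theorem uf2 (w : ℂ) : ∃ t : ℂ, Cd t = w ∧ 1 ≤ ‖t + 2‖ ∧ ‖t‖ ≤ 2 + ‖w‖ ∧ ‖t + 2‖ ≤ 2 + ‖w‖ := by
  obtain ⟨s0, hs0⟩ := IsAlgClosed.exists_pow_nat_eq (1 + 2 * w) (n := 2) (by norm_num)
  obtain ⟨s, hs, hre⟩ : ∃ s : ℂ, s ^ 2 = 1 + 2 * w ∧ 0 ≤ s.re := by
    rcases le_total 0 s0.re with h | h
    · exact ⟨s0, hs0, h⟩
    · refine ⟨-s0, by rw [neg_sq, hs0], ?_⟩
      rw [neg_re]
      linarith
  have hn : ‖s‖ ≤ 1 + ‖w‖ := by
    have h1 : ‖s‖ ^ 2 ≤ (1 + ‖w‖) ^ 2 := by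
      calc ‖s‖ ^ 2 = ‖s ^ 2‖ := (norm_pow s 2).symm
        _ = ‖1 + 2 * w‖ := by rw [hs]
        _ ≤ ‖(1 : ℂ)‖ + ‖2 * w‖ := norm_add_le _ _
        _ = 1 + 2 * ‖w‖ := by simp
        _ ≤ (1 + ‖w‖) ^ 2 := by nlinarith [norm_nonneg w]
    exact le_of_sq_le_sq h1 (by positivity)
  refine ⟨-1 + s, ?_, ?_, ?_, ?_⟩
  · unfold Cd
    have : (-1 + s) + (-1 + s) ^ 2 / 2 = (s ^ 2 - 1) / 2 := by ring
    rw [this, hs]
    ring
  · have h1 : (-1 + s + 2).re ≤ ‖-1 + s + 2‖ := re_le_norm _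
    have h2 : (-1 + s + 2).re = 1 + s.re := by
      simp
      ring
    linarith
  · calc ‖-1 + s‖ ≤ ‖(-1 : ℂ)‖ + ‖s‖ := norm_add_le _ _
      _ = 1 + ‖s‖ := by simp
      _ ≤ 2 + ‖w‖ := by linarith
  · calc ‖-1 + s + 2‖ = ‖(1 : ℂ) + s‖ := by congr 1; ring
      _ ≤ ‖(1 : ℂ)‖ + ‖s‖ := norm_add_le _ _
      _ = 1 + ‖s‖ := by simp
      _ ≤ 2 + ‖w‖ := by linarith

theorem t_UF : S_UF := ⟨uf1, uf2⟩

end Pool.Agent.Run7.h714.AC
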